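import Pool.Agent.Q143.CN.Real

/-!
# Lattices generated by indicator functions of simplicial cones

`S` is a finite subset of a vector space on which some linear functional is positive. Among the cones
spanned by bases of a subspace `K` contained in `S` there are some whose indicator functions
(considered outside of finitely many proper subspaces) form a basis of the lattice generated by all
of them, such that every integer valued real combination has integer coefficients.
-/

namespace Q143.CN

open Finset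

variable {V : Type*} [AddCommGroup V] [Module ℝ V]

/-- The property holds at the points of `K` outside of finitely many proper subspaces. -/
def Gen (K : Submodule ℝ V) (p : V → Prop) : Prop :=
  ∃ 𝒲 : Set (Submodule ℝ V), 𝒲.Finite ∧ (∀ W ∈ 𝒲, ¬ K ≤ W) ∧ ∀ x ∈ K, (∀ W ∈ 𝒲, x ∉ W) → p x

theorem Gen.of_forall {K : Submodule ℝ V} {p : V → Prop} (h : ∀ x ∈ K, p x) : Gen K p :=
  ⟨∅, Set.finite_empty, by simp, fun x hx _ => h x hx⟩

theorem Gen.mono {K : Submodule ℝ V} {p q : V → Prop} (h : Gen K p) (hpq : ∀ x ∈ K, p x → q x) :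
    Gen K q := by
  obtain ⟨𝒲, h1, h2, h3⟩ := h
  exact ⟨𝒲, h1, h2, fun x hx hW => hpq x hx (h3 x hx hW)⟩

theorem Gen.and {K : Submodule ℝ V} {p q : V → Prop} (h : Gen K p) (h' : Gen K q) :
    Gen K fun x => p x ∧ q x := by
  obtain ⟨𝒲, h1, h2, h3⟩ := h
  obtain ⟨𝒲', h1', h2', h3'⟩ := h'
  refine ⟨𝒲 ∪ 𝒲', h1.union h1', ?_, fun x hx hW => ⟨?_, ?_⟩⟩
  · rintro W (hW | hW)
    · exact h2 W hW
    · exact h2' W hW
  · exact h3 x hx fun W hW' => hW W (Or.inl hW')
  · exact h3' x hx fun W hW' => hW W (Or.inr hW')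

theorem Gen.not_mem {K W : Submodule ℝ V} (h : ¬ K ≤ W) : Gen K fun x => x ∉ W :=
  ⟨{W}, Set.finite_singleton W, by
    intro W' hW'
    rw [Set.mem_singleton_iff.1 hW']
    exact h, fun x _ hx => hx W rfl⟩

theorem Gen.forall_mem {ι : Type*} {K : Submodule ℝ V} (s : Finset ι) {p : ι → V → Prop}
    (h : ∀ i ∈ s, Gen K (p i)) : Gen K fun x => ∀ i ∈ s, p i x := by
  classical
  induction s using Finset.induction_on with
  | empty => exact Gen.of_forall (by simp)
  | insert a s ha ih =>
    refine ((h a (Finset.mem_insert_self _ _)).and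
      (ih fun i hi => h i (Finset.mem_insert_of_mem hi))).mono ?_
    rintro x - ⟨h1, h2⟩ i hi
    rcases Finset.mem_insert.1 hi with rfl | hi
    · exact h1
    · exact h2 i hi

theorem Gen.forall_mem_set {ι : Type*} {K : Submodule ℝ V} {s : Set ι} (hs : s.Finite)
    {p : ι → V → Prop} (h : ∀ i ∈ s, Gen K (p i)) : Gen K fun x => ∀ i ∈ s, p i x := by
  have := Gen.forall_mem hs.toFinset (p := p) (K := K) fun i hi => h i (hs.mem_toFinset.1 hi)
  refine this.mono fun x _ hx i hi => hx i (hs.mem_toFinset.2 hi)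

/-- The open cone spanned by `B`. -/
def cone (B : Finset V) : Set V := {x | ∃ c : V → ℝ, (∀ b ∈ B, 0 < c b) ∧ x = ∑ b ∈ B, c b • b}

/-- `B` is a basis of `K`. -/
def IsBasis (K : Submodule ℝ V) (B : Finset V) : Prop :=
  LinearIndepOn ℝ id (B : Set V) ∧ Submodule.span ℝ (B : Set V) = K

/-- indicator of the cone -/
noncomputable def ind (B : Finset V) (x : V) : ℝ := iv (x ∈ cone B)

theorem coord_unique {B : Finset V} (hB : LinearIndepOn ℝ id (B : Set V)) {c c' : V → ℝ}
    (h : ∑ b ∈ B, c b • b = ∑ b ∈ B, c' b • b) : ∀ b ∈ B, c b = c' b := by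
  have h1 := linearIndepOn_finset_iff.1 hB (fun b => c b - c' b) (by
    simp only [id, sub_smul, Finset.sum_sub_distrib]
    exact sub_eq_zero.2 h)
  exact fun b hb => sub_eq_zero.1 (h1 b hb)

theorem mem_cone_iff {B : Finset V} (hB : LinearIndepOn ℝ id (B : Set V)) {c : V → ℝ} {x : V}
    (hx : x = ∑ b ∈ B, c b • b) : x ∈ cone B ↔ ∀ b ∈ B, 0 < c b := by
  constructor
  · rintro ⟨c', h1, h2⟩ b hb
    rw [coord_unique hB (hx.symm.trans h2) b hb]
    exact h1 b hb
  · intro h
    exact ⟨c, h, hx⟩

theorem cone_subset (B : Finset V) {x : V} (hx : x ∈ cone B) :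
    x ∈ Submodule.span ℝ (B : Set V) := by
  obtain ⟨c, -, rfl⟩ := hx
  exact Submodule.sum_mem _ fun b hb => Submodule.smul_mem _ _ (Submodule.subset_span hb)

theorem exists_coord {B : Finset V} {x : V} (hx : x ∈ Submodule.span ℝ (B : Set V)) :
    ∃ c : V → ℝ, x = ∑ b ∈ B, c b • b := by
  obtain ⟨f, hf⟩ := Submodule.mem_span_finset.1 hx
  exact ⟨f, hf.2.symm⟩

theorem IsBasis.coord {K : Submodule ℝ V} {B : Finset V} (hB : IsBasis K B) {x : V} (hx : x ∈ K) :
    ∃ c : V → ℝ, x = ∑ b ∈ B, c b • b := exists_coord (hB.2 ▸ hx)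

theorem IsBasis.mem {K : Submodule ℝ V} {B : Finset V} (hB : IsBasis K B) {b : V} (hb : b ∈ B) :
    b ∈ K := hB.2 ▸ Submodule.subset_span hb

theorem IsBasis.finrank [FiniteDimensional ℝ V] {K : Submodule ℝ V} {B : Finset V}
    (hB : IsBasis K B) : Module.finrank ℝ K = B.card := by
  rw [← hB.2]
  have := finrank_span_set_eq_card hB.1
  rw [this]
  simp

variable [DecidableEq V]

/-- Cones containing the vector `v₀`. -/
theorem mem_cone_insert {H : Submodule ℝ V} {B : Finset V} (hBH : ∀ b ∈ B, b ∈ H) {v₀ : V}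
    (hv₀ : v₀ ∉ H) {y : V} (hy : y ∈ H) (s : ℝ) :
    y + s • v₀ ∈ cone (insert v₀ B) ↔ 0 < s ∧ y ∈ cone B := by
  have hnot : v₀ ∉ B := fun h => hv₀ (hBH _ h)
  constructor
  · rintro ⟨c, h1, h2⟩
    rw [Finset.sum_insert hnot] at h2
    have hz : (∑ b ∈ B, c b • b) ∈ H :=
      Submodule.sum_mem _ fun b hb => Submodule.smul_mem _ _ (hBH b hb)
    have h3 : (s - c v₀) • v₀ = ∑ b ∈ B, c b • b - y := by
      rw [sub_smul]
      rw [add_comm (c v₀ • v₀)] at h2
      rw [sub_eq_sub_iff_add_eq_add, add_comm, h2]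
    have h4 : s - c v₀ = 0 := by
      by_contra hne
      apply hv₀
      have : (s - c v₀) • v₀ ∈ H := by
        rw [h3]
        exact Submodule.sub_mem _ hz hy
      exact (Submodule.smul_mem_iff _ hne).1 this
    rw [h4, zero_smul] at h3
    refine ⟨?_, c, fun b hb => h1 b (Finset.mem_insert_of_mem hb), (sub_eq_zero.1 h3.symm).symm⟩
    have := h1 v₀ (Finset.mem_insert_self _ _)
    linarith
  · rintro ⟨hs, c, h1, h2⟩
    refine ⟨Function.update c v₀ s, ?_, ?_⟩
    · intro b hb
      by_cases h : b = v₀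
      · rw [h, Function.update_self]
        exact hs
      · rw [Function.update_of_ne h]
        exact h1 b (Finset.mem_of_mem_insert_of_ne hb h)
    · rw [Finset.sum_insert hnot, Function.update_self, h2, add_comm]
      congr 1
      refine Finset.sum_congr rfl fun b hb => ?_
      rw [Function.update_of_ne]
      rintro rfl
      exact hnot hb

theorem isBasis_insert {H K : Submodule ℝ V} {B : Finset V} (hB : IsBasis H B) {v₀ : V}
    (hv₀ : v₀ ∉ H) (hK : K = H ⊔ Submodule.span ℝ {v₀}) : IsBasis K (insert v₀ B) := by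
  constructor
  · rw [Finset.coe_insert]
    refine (linearIndepOn_insert ?_).2 ⟨hB.1, ?_⟩
    · intro h
      exact hv₀ (hB.mem h)
    · simp only [id, Set.image_id']
      rwa [hB.2]
  · rw [Finset.coe_insert, Submodule.span_insert, hB.2, hK, sup_comm]

/-- The exchange identity for the indicator functions of cones. -/
theorem exchange [FiniteDimensional ℝ V] {K : Submodule ℝ V} {B : Finset V} (hB : IsBasis K B)
    {v₀ : V} (hv₀ : v₀ ∉ B) {a : V → ℝ} (ha : v₀ = ∑ b ∈ B, a b • b) (hpos : ∃ b ∈ B, 0 < a b) :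
    (∀ b ∈ B, a b ≠ 0 → IsBasis K (insert v₀ (B.erase b))) ∧
    Gen K fun x => ind B x = ∑ b ∈ B with 0 < a b, ind (insert v₀ (B.erase b)) x -
      ∑ b ∈ B with a b < 0, ind (insert v₀ (B.erase b)) x := by
  have hv₀K : v₀ ∈ K := by
    rw [ha]
    exact Submodule.sum_mem _ fun b hb => Submodule.smul_mem _ _ (hB.mem hb)
  have hindep : ∀ b ∈ B, b ∉ Submodule.span ℝ ((B.erase b : Finset V) : Set V) := by
    intro b hb hmem
    obtain ⟨c, hc⟩ := exists_coord hmem
    have h1 := linearIndepOn_finset_iff.1 hB.1 (fun j => if j = b then 1 else -c j) (by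
      rw [← Finset.add_sum_erase _ _ hb]
      simp only [id, if_true, one_smul]
      have : ∑ x ∈ B.erase b, (if x = b then (1 : ℝ) else -c x) • x = -∑ x ∈ B.erase b, c x • x := by
        rw [← Finset.sum_neg_distrib]
        refine Finset.sum_congr rfl fun j hj => ?_
        rw [if_neg (Finset.ne_of_mem_erase hj), neg_smul]
      rw [this, ← hc]
      exact add_neg_cancel b) b hb
    simp at h1
  have herase : ∀ b ∈ B, LinearIndepOn ℝ id ((B.erase b : Finset V) : Set V) := fun b _ =>
    hB.1.mono (by
      intro j hj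
      exact Finset.mem_of_mem_erase hj)
  -- expansion with `v₀` in the place of `b`
  have hbase : ∀ b ∈ B, a b ≠ 0 → IsBasis K (insert v₀ (B.erase b)) := by
    intro b hb hab
    have hvb : v₀ = a b • b + ∑ j ∈ B.erase b, a j • j := by
      rw [Finset.add_sum_erase B (fun j => a j • j) hb]
      exact ha
    have hv' : v₀ ∉ Submodule.span ℝ ((B.erase b : Finset V) : Set V) := by
      intro hmem
      apply hindep b hb
      have h1 : a b • b ∈ Submodule.span ℝ ((B.erase b : Finset V) : Set V) := by
        have : a b • b = v₀ - ∑ j ∈ B.erase b, a j • j := by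
          rw [hvb]
          simp
        rw [this]
        exact Submodule.sub_mem _ hmem (Submodule.sum_mem _ fun j hj =>
          Submodule.smul_mem _ _ (Submodule.subset_span hj))
      exact (Submodule.smul_mem_iff _ hab).1 h1
    refine isBasis_insert ⟨herase b hb, rfl⟩ hv' ?_
    apply le_antisymm
    · rw [← hB.2, Submodule.span_le]
      intro j hj
      by_cases hjb : j = b
      · subst hjb
        have h1 : a j • j ∈ Submodule.span ℝ ((B.erase j : Finset V) : Set V) ⊔
            Submodule.span ℝ {v₀} := by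
          have : a j • j = -(∑ i ∈ B.erase j, a i • i) + v₀ := by
            rw [hvb]
            abel
          rw [this]
          exact Submodule.add_mem_sup (Submodule.neg_mem _ (Submodule.sum_mem _ fun i hi =>
            Submodule.smul_mem _ _ (Submodule.subset_span hi))) (Submodule.mem_span_singleton_self _)
        exact (Submodule.smul_mem_iff _ hab).1 h1
      · exact Submodule.mem_sup_left (Submodule.subset_span (Finset.mem_erase.2 ⟨hjb, hj⟩))
    · refine sup_le ?_ ?_
      · rw [Submodule.span_le]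
        intro j hj
        exact hB.mem (Finset.mem_of_mem_erase hj)
      · rw [Submodule.span_singleton_le_iff_mem]
        exact hv₀K
  refine ⟨hbase, ?_⟩
  have hg1 : Gen K fun x => ∀ b ∈ B, x ∉ Submodule.span ℝ ((B.erase b : Finset V) : Set V) := by
    refine Gen.forall_mem B fun b hb => Gen.not_mem fun h => ?_
    exact hindep b hb (h (hB.mem hb))
  have hg2 : Gen K fun x => ∀ p ∈ (B ×ˢ B).filter (fun p => p.1 ≠ p.2),
      x ∉ Submodule.span ℝ ((insert v₀ ((B.erase p.1).erase p.2) : Finset V) : Set V) := by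
    refine Gen.forall_mem _ fun p hp => Gen.not_mem fun h => ?_
    rw [Finset.mem_filter, Finset.mem_product] at hp
    have h1 := Submodule.finrank_mono h
    rw [hB.finrank] at h1
    have h2 := finrank_span_finset_le_card (R := ℝ) (insert v₀ ((B.erase p.1).erase p.2))
    have h3 := Finset.card_insert_le v₀ ((B.erase p.1).erase p.2)
    have h4 : ((B.erase p.1).erase p.2).card = B.card - 1 - 1 := by
      rw [Finset.card_erase_of_mem (Finset.mem_erase.2 ⟨hp.2.symm, hp.1.2⟩),
        Finset.card_erase_of_mem hp.1.1]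
    have h5 : 2 ≤ B.card := by
      have : ({p.1, p.2} : Finset V).card ≤ B.card := Finset.card_le_card (by
        intro j hj
        rcases Finset.mem_insert.1 hj with rfl | hj
        · exact hp.1.1
        · rw [Finset.mem_singleton.1 hj]
          exact hp.1.2)
      rwa [Finset.card_pair hp.2] at this
    have h6 : Set.finrank ℝ ((insert v₀ ((B.erase p.1).erase p.2) : Finset V) : Set V) =
      Module.finrank ℝ (Submodule.span ℝ
        ((insert v₀ ((B.erase p.1).erase p.2) : Finset V) : Set V)) := rfl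
    omega
  refine (hg1.and hg2).mono ?_
  rintro x hx ⟨hx1, hx2⟩
  obtain ⟨c, hc⟩ := hB.coord hx
  have hc0 : ∀ b ∈ B, c b ≠ 0 := by
    intro b hb h0
    apply hx1 b hb
    rw [hc, ← Finset.add_sum_erase _ _ hb, h0, zero_smul, zero_add]
    exact Submodule.sum_mem _ fun j hj => Submodule.smul_mem _ _ (Submodule.subset_span hj)
  have hexp : ∀ b ∈ B, a b ≠ 0 → x = (c b / a b) • v₀ +
      ∑ j ∈ B.erase b, (c j - c b / a b * a j) • j := by
    intro b hb hab
    have h1 : (c b / a b) • v₀ = c b • b + ∑ j ∈ B.erase b, (c b / a b * a j) • j := by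
      conv_lhs => rw [ha, ← Finset.add_sum_erase _ _ hb, smul_add, Finset.smul_sum]
      rw [smul_smul, div_mul_cancel₀ _ hab]
      congr 1
      exact Finset.sum_congr rfl fun j _ => smul_smul _ _ _
    rw [h1]
    conv_lhs => rw [hc, ← Finset.add_sum_erase _ _ hb]
    rw [add_assoc, ← Finset.sum_add_distrib]
    congr 1
    refine Finset.sum_congr rfl fun j _ => ?_
    rw [← add_smul]
    congr 1
    ring
  have hd : ∀ b ∈ B, ∀ j ∈ B, b ≠ j → a b ≠ 0 → a j ≠ 0 → c b / a b ≠ c j / a j := by
    intro b hb j hj hbj hab haj heq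
    apply hx2 (b, j) (Finset.mem_filter.2 ⟨Finset.mem_product.2 ⟨hb, hj⟩, hbj⟩)
    rw [hexp b hb hab, ← Finset.add_sum_erase _ _ (Finset.mem_erase.2 ⟨hbj.symm, hj⟩)]
    have h0 : c j - c b / a b * a j = 0 := by
      rw [heq, div_mul_cancel₀ _ haj, sub_self]
    rw [h0, zero_smul, zero_add, Finset.coe_insert]
    refine Submodule.add_mem _ (Submodule.smul_mem _ _ (Submodule.subset_span
      (Set.mem_insert _ _))) (Submodule.sum_mem _ fun i hi => Submodule.smul_mem _ _
        (Submodule.subset_span (Set.mem_insert_of_mem _ hi)))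
  have hind : ∀ b ∈ B, a b ≠ 0 → ind (insert v₀ (B.erase b)) x = iv (Pb B a c b) := by
    intro b hb hab
    apply iv_congr
    have hnot : v₀ ∉ B.erase b := fun h => hv₀ (Finset.mem_of_mem_erase h)
    have hx' : x = ∑ j ∈ insert v₀ (B.erase b),
        (Function.update (fun j => c j - c b / a b * a j) v₀ (c b / a b)) j • j := by
      rw [Finset.sum_insert hnot, Function.update_self]
      conv_lhs => rw [hexp b hb hab]
      congr 1
      refine Finset.sum_congr rfl fun j hj => ?_
      rw [Function.update_of_ne]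
      rintro rfl
      exact hnot hj
    rw [mem_cone_iff (hbase b hb hab).1 hx']
    unfold Pb
    constructor
    · intro h
      refine ⟨?_, fun j hj => ?_⟩
      · have := h v₀ (Finset.mem_insert_self _ _)
        rwa [Function.update_self] at this
      · have := h j (Finset.mem_insert_of_mem hj)
        rwa [Function.update_of_ne] at this
        rintro rfl
        exact hnot hj
    · rintro ⟨h1, h2⟩ j hj
      by_cases hjv : j = v₀
      · rw [hjv, Function.update_self]
        exact h1
      · rw [Function.update_of_ne hjv]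
        exact h2 j (Finset.mem_of_mem_insert_of_ne hj hjv)
  have h0 : ind B x = iv (∀ b ∈ B, 0 < c b) := iv_congr (mem_cone_iff hB.1 hc)
  rw [h0, real_identity B a c hc0 hd hpos]
  congr 1
  · refine Finset.sum_congr rfl fun b hb => ?_
    rw [Finset.mem_filter] at hb
    exact (hind b hb.1 hb.2.ne').symm
  · refine Finset.sum_congr rfl fun b hb => ?_
    rw [Finset.mem_filter] at hb
    exact (hind b hb.1 hb.2.ne).symm

end Q143.CN
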