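import Pool.Agent.Q143.CN.Cone

/-!
# The lattice generated by indicator functions of simplicial cones: main theorem
-/

namespace Q143.CN

open Finset

variable {V : Type*} [AddCommGroup V] [Module ℝ V] [DecidableEq V]

/-- Generically an integral combination of the indicator functions. -/
def IntComb (K : Submodule ℝ V) (𝔅 : Finset (Finset V)) (f : V → ℝ) : Prop :=
  ∃ n : Finset V → ℤ, Gen K fun x => f x = ∑ B ∈ 𝔅, (n B : ℝ) * ind B x

omit [DecidableEq V] in
theorem IntComb.add {K : Submodule ℝ V} {𝔅 : Finset (Finset V)} {f g : V → ℝ}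
    (hf : IntComb K 𝔅 f) (hg : IntComb K 𝔅 g) : IntComb K 𝔅 fun x => f x + g x := by
  obtain ⟨n, hn⟩ := hf
  obtain ⟨m, hm⟩ := hg
  refine ⟨fun B => n B + m B, (hn.and hm).mono ?_⟩
  rintro x - ⟨h1, h2⟩
  beta_reduce
  rw [h1, h2, ← Finset.sum_add_distrib]
  exact Finset.sum_congr rfl fun B _ => by push_cast; ring

omit [DecidableEq V] in
theorem IntComb.neg {K : Submodule ℝ V} {𝔅 : Finset (Finset V)} {f : V → ℝ}
    (hf : IntComb K 𝔅 f) : IntComb K 𝔅 fun x => -f x := by
  obtain ⟨n, hn⟩ := hf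
  refine ⟨fun B => -n B, hn.mono ?_⟩
  rintro x - h1
  beta_reduce
  rw [h1, ← Finset.sum_neg_distrib]
  exact Finset.sum_congr rfl fun B _ => by push_cast; ring

omit [DecidableEq V] in
theorem IntComb.zero (K : Submodule ℝ V) (𝔅 : Finset (Finset V)) : IntComb K 𝔅 fun _ => 0 :=
  ⟨fun _ => 0, Gen.of_forall (by simp)⟩

omit [DecidableEq V] in
theorem IntComb.congr {K : Submodule ℝ V} {𝔅 : Finset (Finset V)} {f g : V → ℝ}
    (hf : IntComb K 𝔅 f) (h : Gen K fun x => g x = f x) : IntComb K 𝔅 g := by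
  obtain ⟨n, hn⟩ := hf
  refine ⟨n, (hn.and h).mono ?_⟩
  rintro x - ⟨h1, h2⟩
  rw [h2, h1]

omit [DecidableEq V] in
theorem IntComb.sum {ι : Type*} {K : Submodule ℝ V} {𝔅 : Finset (Finset V)} (s : Finset ι)
    {f : ι → V → ℝ} (hf : ∀ i ∈ s, IntComb K 𝔅 (f i)) : IntComb K 𝔅 fun x => ∑ i ∈ s, f i x := by
  classical
  induction s using Finset.induction_on with
  | empty => simpa using IntComb.zero K 𝔅
  | insert a s ha ih =>
    have := (hf a (Finset.mem_insert_self _ _)).add
      (ih fun i hi => hf i (Finset.mem_insert_of_mem hi))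
    refine this.congr (Gen.of_forall fun x _ => ?_)
    rw [Finset.sum_insert ha]

theorem IntComb.mono {K : Submodule ℝ V} {𝔅 𝔅' : Finset (Finset V)} {f : V → ℝ}
    (hf : IntComb K 𝔅 f) (h : 𝔅 ⊆ 𝔅') : IntComb K 𝔅' f := by
  obtain ⟨n, hn⟩ := hf
  refine ⟨fun B => if B ∈ 𝔅 then n B else 0, hn.mono ?_⟩
  rintro x - h1
  rw [h1, ← Finset.sum_subset h]
  · exact Finset.sum_congr rfl fun B hB => by simp [hB]
  · intro B _ hB
    simp [hB]

omit [DecidableEq V] in
/-- Lifting of generic properties along the direction of `v₀`. -/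
theorem Gen.lift {H K : Submodule ℝ V} {v₀ : V} (hv₀ : v₀ ∉ H)
    (hK : K = H ⊔ Submodule.span ℝ {v₀}) {p : V → Prop} (hp : Gen H p) :
    Gen K fun x => ∀ y ∈ H, ∀ s : ℝ, x = y + s • v₀ → p y := by
  obtain ⟨𝒲, h1, h2, h3⟩ := hp
  refine ⟨(fun W => (W ⊓ H) ⊔ Submodule.span ℝ {v₀}) '' 𝒲, h1.image _, ?_, ?_⟩
  · rintro _ ⟨W, hW, rfl⟩ hle
    apply h2 W hW
    intro y hy
    have : y ∈ (W ⊓ H) ⊔ Submodule.span ℝ {v₀} := hle (hK ▸ Submodule.mem_sup_left hy)
    obtain ⟨w, hw, z, hz, hwz⟩ := Submodule.mem_sup.1 this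
    obtain ⟨s, rfl⟩ := Submodule.mem_span_singleton.1 hz
    have hs : s = 0 := by
      by_contra hs
      apply hv₀
      have : s • v₀ ∈ H := by
        have e : s • v₀ = y - w := by rw [← hwz]; abel
        rw [e]
        exact Submodule.sub_mem _ hy hw.2
      exact (Submodule.smul_mem_iff _ hs).1 this
    rw [hs, zero_smul, add_zero] at hwz
    rw [← hwz]
    exact hw.1
  · rintro x _ hxW y hy s rfl
    refine h3 y hy fun W hW hyW => ?_
    exact hxW _ ⟨W, hW, rfl⟩ (Submodule.add_mem_sup ⟨hyW, hy⟩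
      (Submodule.mem_span_singleton.2 ⟨s, rfl⟩))

theorem exists_pos_le {ι : Type*} (s : Finset ι) (f : ι → ℝ) (h : ∀ i ∈ s, 0 < f i) :
    ∃ δ, 0 < δ ∧ ∀ i ∈ s, δ ≤ f i := by
  classical
  induction s using Finset.induction_on with
  | empty => exact ⟨1, one_pos, by simp⟩
  | insert a s ha ih =>
    obtain ⟨δ, hδ, hδs⟩ := ih fun i hi => h i (Finset.mem_insert_of_mem hi)
    refine ⟨min δ (f a), lt_min hδ (h a (Finset.mem_insert_self _ _)), fun i hi => ?_⟩
    rcases Finset.mem_insert.1 hi with rfl | hi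
    · exact min_le_right _ _
    · exact (min_le_left _ _).trans (hδs i hi)

omit [DecidableEq V] in
theorem ind_empty : ind (∅ : Finset V) 0 = 1 := iv_true ⟨fun _ => 0, by simp, by simp⟩

omit [DecidableEq V] in
theorem finite_bad {W : Submodule ℝ V} {v₀ : V} (h : v₀ ∉ W) (y : V) :
    {t : ℝ | y + t • v₀ ∈ W}.Finite := by
  apply Set.Subsingleton.finite
  intro t ht t' ht'
  by_contra hne
  apply h
  have : (t - t') • v₀ ∈ W := by
    have e : (t - t') • v₀ = (y + t • v₀) - (y + t' • v₀) := by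
      rw [sub_smul]
      abel
    rw [e]
    exact Submodule.sub_mem _ ht ht'
  exact (Submodule.smul_mem_iff _ (sub_ne_zero.2 hne)).1 this

theorem main [FiniteDimensional ℝ V] (S : Finset V) (ℓ : V →ₗ[ℝ] ℝ) (hℓ : ∀ s ∈ S, 0 < ℓ s)
    (k : ℕ) : ∀ K : Submodule ℝ V, Module.finrank ℝ K = k →
    ∃ 𝔅 : Finset (Finset V), (∀ B ∈ 𝔅, B ⊆ S ∧ IsBasis K B) ∧
      (∀ B, B ⊆ S → IsBasis K B → IntComb K 𝔅 (ind B)) ∧
      (∀ c : Finset V → ℝ, Gen K (fun x => ∃ m : ℤ, ∑ B ∈ 𝔅, c B * ind B x = m) →
        ∀ B ∈ 𝔅, ∃ m : ℤ, c B = m) := by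
  classical
  induction k with
  | zero =>
    intro K hK
    have hK0 : K = ⊥ := Submodule.finrank_eq_zero.1 hK
    refine ⟨{∅}, ?_, ?_, ?_⟩
    · intro B hB
      rw [Finset.mem_singleton] at hB
      subst hB
      refine ⟨Finset.empty_subset _, ?_, ?_⟩
      · simp
      · simp [hK0]
    · intro B _ hB
      have hc : B.card = 0 := by rw [← hB.finrank, hK]
      rw [Finset.card_eq_zero] at hc
      subst hc
      exact ⟨fun _ => 1, Gen.of_forall (by simp)⟩
    · intro c hc B hB
      rw [Finset.mem_singleton] at hB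
      subst hB
      obtain ⟨𝒲, h1, h2, h3⟩ := hc
      obtain ⟨m, hm⟩ := h3 0 K.zero_mem (fun W hW _ => h2 W hW (by rw [hK0]; exact bot_le))
      refine ⟨m, ?_⟩
      rw [Finset.sum_singleton, ind_empty, mul_one] at hm
      exact hm
  | succ k ih =>
    intro K hK
    by_cases hSK : ∃ v₀ ∈ S, v₀ ∈ K
    swap
    · refine ⟨∅, by simp, ?_, by simp⟩
      intro B hBS hB
      exfalso
      have hc : B.card = k + 1 := by rw [← hB.finrank, hK]
      obtain ⟨b, hb⟩ : B.Nonempty := by
        rw [← Finset.card_pos, hc]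
        omega
      exact hSK ⟨b, hBS hb, hB.mem hb⟩
    obtain ⟨v₀, hv₀S, hv₀K⟩ := hSK
    let ℋ : Finset (Submodule ℝ V) := (S.powerset.image fun T : Finset V => Submodule.span ℝ (T : Set V)).filter
      fun H => H ≤ K ∧ Module.finrank ℝ H = k ∧ v₀ ∉ H
    have hℋ : ∀ H ∈ ℋ, H ≤ K ∧ Module.finrank ℝ H = k ∧ v₀ ∉ H := fun H hH =>
      (Finset.mem_filter.1 hH).2
    have hsup : ∀ H, H ≤ K → Module.finrank ℝ H = k → v₀ ∉ H →
        K = H ⊔ Submodule.span ℝ {v₀} := by
      intro H h1 h2 h3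
      symm
      apply Submodule.eq_of_le_of_finrank_le
      · exact sup_le h1 ((Submodule.span_singleton_le_iff_mem _ _).2 hv₀K)
      · rw [hK, ← h2]
        apply Nat.succ_le_of_lt
        apply Submodule.finrank_lt_finrank_of_lt
        refine lt_of_le_of_ne le_sup_left fun h => h3 ?_
        rw [h]
        exact Submodule.mem_sup_right (Submodule.mem_span_singleton_self _)
    choose! 𝔅' hB1 hB2 hB3 using ih
    let 𝔅 : Finset (Finset V) := ℋ.biUnion fun H => (𝔅' H).image (insert v₀)
    have hnotin : ∀ H ∈ ℋ, ∀ B ∈ 𝔅' H, v₀ ∉ B := by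
      intro H hH B hB hv
      obtain ⟨-, h2, h3⟩ := hℋ H hH
      exact h3 ((hB1 H h2 B hB).2.mem hv)
    have herase : ∀ H ∈ ℋ, ∀ B ∈ 𝔅' H, (insert v₀ B).erase v₀ = B := fun H hH B hB =>
      Finset.erase_insert (hnotin H hH B hB)
    -- the basis with `v₀` in it
    have hcase1 : ∀ B, B ⊆ S → IsBasis K B → v₀ ∈ B → IntComb K 𝔅 (ind B) := by
      intro B hBS hB hvB
      set B₀ := B.erase v₀ with hB₀
      set H := Submodule.span ℝ (B₀ : Set V) with hH
      have hBins : insert v₀ B₀ = B := Finset.insert_erase hvB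
      have hB₀b : IsBasis H B₀ := ⟨hB.1.mono (by
        intro j hj
        exact Finset.mem_of_mem_erase hj), rfl⟩
      have hfr : Module.finrank ℝ H = k := by
        rw [hB₀b.finrank, Finset.card_erase_of_mem hvB, ← hB.finrank, hK]
        rfl
      have hHK : H ≤ K := by
        rw [hH, Submodule.span_le]
        intro j hj
        exact hB.mem (Finset.mem_of_mem_erase hj)
      have hvH : v₀ ∉ H := by
        intro h
        have : K ≤ H := by
          rw [← hB.2, Submodule.span_le]
          intro j hj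
          by_cases hjv : j = v₀
          · rw [hjv]
            exact h
          · exact Submodule.subset_span (Finset.mem_erase.2 ⟨hjv, hj⟩)
        have := Submodule.finrank_mono this
        omega
      have hHℋ : H ∈ ℋ := Finset.mem_filter.2 ⟨Finset.mem_image.2 ⟨B₀, Finset.mem_powerset.2
        ((Finset.erase_subset _ _).trans hBS), rfl⟩, hHK, hfr, hvH⟩
      obtain ⟨n, hn⟩ := hB2 H hfr B₀ ((Finset.erase_subset _ _).trans hBS) hB₀b
      have hKH := hsup H hHK hfr hvH
      have hcomb : IntComb K ((𝔅' H).image (insert v₀)) (ind B) := by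
        refine ⟨fun C => n (C.erase v₀), (Gen.lift hvH hKH hn).mono ?_⟩
        intro x hx hxy
        rw [hKH] at hx
        obtain ⟨y, hy, z, hz, rfl⟩ := Submodule.mem_sup.1 hx
        obtain ⟨s, rfl⟩ := Submodule.mem_span_singleton.1 hz
        have hy1 := hxy y hy s rfl
        rw [Finset.sum_image]
        · have hl : ind B (y + s • v₀) = if 0 < s then ind B₀ y else 0 := by
            have h1 := mem_cone_insert (fun b hb => hB₀b.mem hb) hvH hy s
            rw [hBins] at h1
            split_ifs with hs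
            · exact iv_congr (h1.trans ⟨fun h => h.2, fun h => ⟨hs, h⟩⟩)
            · exact iv_false fun h => hs (h1.1 h).1
          have hr : ∀ C ∈ 𝔅' H, ind (insert v₀ C) (y + s • v₀) = if 0 < s then ind C y else 0 := by
            intro C hC
            have h1 := mem_cone_insert (fun b hb => (hB1 H hfr C hC).2.mem hb) hvH hy s
            split_ifs with hs
            · exact iv_congr (h1.trans ⟨fun h => h.2, fun h => ⟨hs, h⟩⟩)
            · exact iv_false fun h => hs (h1.1 h).1
          rw [hl]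
          split_ifs with hs
          · rw [hy1]
            refine Finset.sum_congr rfl fun C hC => ?_
            beta_reduce
            rw [hr C hC, if_pos hs, herase H hHℋ C hC]
          · symm
            apply Finset.sum_eq_zero
            intro C hC
            rw [hr C hC, if_neg hs, mul_zero]
        · intro C hC D hD hCD
          have := congrArg (fun X => Finset.erase X v₀) hCD
          simp only [herase H hHℋ C hC, herase H hHℋ D hD] at this
          exact this
      exact hcomb.mono (Finset.subset_biUnion_of_mem (fun H => (𝔅' H).image (insert v₀)) hHℋ)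
    refine ⟨𝔅, ?_, ?_, ?_⟩
    · intro C hC
      obtain ⟨H, hH, hC⟩ := Finset.mem_biUnion.1 hC
      obtain ⟨B, hB, rfl⟩ := Finset.mem_image.1 hC
      obtain ⟨h1, h2, h3⟩ := hℋ H hH
      obtain ⟨h4, h5⟩ := hB1 H h2 B hB
      exact ⟨Finset.insert_subset hv₀S h4, isBasis_insert h5 h3 (hsup H h1 h2 h3)⟩
    · intro B hBS hB
      by_cases hvB : v₀ ∈ B
      · exact hcase1 B hBS hB hvB
      · obtain ⟨a, ha⟩ := hB.coord hv₀K
        have hpos : ∃ b ∈ B, 0 < a b := by
          by_contra hcon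
          push Not at hcon
          have h1 : ℓ v₀ = ∑ b ∈ B, a b * ℓ b := by
            conv_lhs => rw [ha, map_sum]
            exact Finset.sum_congr rfl fun b _ => by rw [map_smul, smul_eq_mul]
          have h2 : ∑ b ∈ B, a b * ℓ b ≤ 0 := Finset.sum_nonpos fun b hb =>
            mul_nonpos_of_nonpos_of_nonneg (hcon b hb) (hℓ b (hBS hb)).le
          have h3 := hℓ v₀ hv₀S
          linarith
        obtain ⟨h1, h2⟩ := exchange hB hvB ha hpos
        have hsub : ∀ b ∈ B, insert v₀ (B.erase b) ⊆ S := fun b _ =>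
          Finset.insert_subset hv₀S ((Finset.erase_subset _ _).trans hBS)
        have h3 : IntComb K 𝔅 fun x => ∑ b ∈ B with 0 < a b, ind (insert v₀ (B.erase b)) x :=
          IntComb.sum _ fun b hb => by
            rw [Finset.mem_filter] at hb
            exact hcase1 _ (hsub b hb.1) (h1 b hb.1 hb.2.ne') (Finset.mem_insert_self _ _)
        have h4 : IntComb K 𝔅 fun x => ∑ b ∈ B with a b < 0, ind (insert v₀ (B.erase b)) x :=
          IntComb.sum _ fun b hb => by
            rw [Finset.mem_filter] at hb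
            exact hcase1 _ (hsub b hb.1) (h1 b hb.1 hb.2.ne) (Finset.mem_insert_self _ _)
        exact (h3.add h4.neg).congr (h2.mono fun x _ h => by rw [h]; ring)
    · intro c hc C hC
      obtain ⟨H₀, hH₀, hC⟩ := Finset.mem_biUnion.1 hC
      obtain ⟨B₀, hB₀, rfl⟩ := Finset.mem_image.1 hC
      obtain ⟨hH1, hH2, hH3⟩ := hℋ H₀ hH₀
      refine hB3 H₀ hH2 (fun B => c (insert v₀ B)) ?_ B₀ hB₀
      -- the total sum
      have htotal : ∀ x, ∑ B ∈ 𝔅, c B * ind B x =
          ∑ H ∈ ℋ, ∑ B ∈ 𝔅' H, c (insert v₀ B) * ind (insert v₀ B) x := by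
        intro x
        rw [Finset.sum_biUnion]
        · refine Finset.sum_congr rfl fun H hH => ?_
          rw [Finset.sum_image]
          intro C hC D hD hCD
          have := congrArg (fun X => Finset.erase X v₀) hCD
          simp only [herase H hH C hC, herase H hH D hD] at this
          exact this
        · intro H hH H' hH' hne
          change Disjoint ((𝔅' H).image (insert v₀)) ((𝔅' H').image (insert v₀))
          rw [Finset.disjoint_left]
          intro D hD hD'
          obtain ⟨B, hB, rfl⟩ := Finset.mem_image.1 hD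
          obtain ⟨B', hB', hBB⟩ := Finset.mem_image.1 hD'
          have := congrArg (fun X => Finset.erase X v₀) hBB
          simp only [herase H' hH' B' hB', herase H hH B hB] at this
          subst this
          apply hne
          rw [← (hB1 H (hℋ H hH).2.1 _ hB).2.2, ← (hB1 H' (hℋ H' hH').2.1 _ hB').2.2]
      obtain ⟨𝒲, hWfin, hWK, hW⟩ := hc
      have hKH := hsup H₀ hH1 hH2 hH3
      have hg1 : Gen H₀ fun y => ∀ H ∈ ℋ.erase H₀, y ∉ H := by
        refine Gen.forall_mem _ fun H hH => Gen.not_mem fun hle => ?_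
        rw [Finset.mem_erase] at hH
        exact hH.1 (Submodule.eq_of_le_of_finrank_eq hle (by rw [hH2, (hℋ H hH.2).2.1])).symm
      have hg2 : Gen H₀ fun y => ∀ W ∈ {W ∈ 𝒲 | v₀ ∈ W}, y ∉ W := by
        refine Gen.forall_mem_set (hWfin.subset (Set.sep_subset _ _)) fun W hW => Gen.not_mem ?_
        intro hle
        apply hWK W hW.1
        rw [hKH]
        exact sup_le hle ((Submodule.span_singleton_le_iff_mem _ _).2 hW.2)
      refine (hg1.and hg2).mono ?_
      rintro y hy ⟨hy1, hy2⟩
      -- decomposition with respect to the other hyperplanes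
      have hdec : ∀ H ∈ ℋ.erase H₀, ∃ s : ℝ, s ≠ 0 ∧ ∃ y' ∈ H, y = y' + s • v₀ := by
        intro H hH
        have hH' := Finset.mem_erase.1 hH
        obtain ⟨h1, h2, h3⟩ := hℋ H hH'.2
        have hyK : y ∈ K := hH1 hy
        rw [hsup H h1 h2 h3] at hyK
        obtain ⟨y', hy', z, hz, rfl⟩ := Submodule.mem_sup.1 hyK
        obtain ⟨s, rfl⟩ := Submodule.mem_span_singleton.1 hz
        refine ⟨s, ?_, y', hy', rfl⟩
        rintro rfl
        apply hy1 H hH
        rw [zero_smul, add_zero]
        exact hy'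
      choose! s hs0 y' hy'H hyy' using hdec
      obtain ⟨δ, hδ, hδs⟩ := exists_pos_le (ℋ.erase H₀) (fun H => |s H|)
        fun H hH => abs_pos.2 (hs0 H hH)
      have hbad : ((⋃ W ∈ {W ∈ 𝒲 | v₀ ∉ W}, {t : ℝ | y + t • v₀ ∈ W}) ∪
          (⋃ W ∈ {W ∈ 𝒲 | v₀ ∉ W}, {t : ℝ | y + (-t) • v₀ ∈ W})).Finite := by
        refine Set.Finite.union ?_ ?_
        · exact (hWfin.subset (Set.sep_subset _ _)).biUnion fun W hW => finite_bad hW.2 y
        · refine (hWfin.subset (Set.sep_subset _ _)).biUnion fun W hW => ?_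
          have := (finite_bad hW.2 y).preimage (f := fun t : ℝ => -t)
            (fun a _ b _ h => neg_injective h)
          exact this
      obtain ⟨ε, hε, hεbad⟩ := (Set.Ioo_infinite hδ).exists_notMem_finite hbad
      rw [Set.mem_union, not_or] at hεbad
      have hxW : ∀ t : ℝ, (t = ε ∨ t = -ε) → ∀ W ∈ 𝒲, y + t • v₀ ∉ W := by
        intro t ht W hW' hmem
        by_cases hvW : v₀ ∈ W
        · refine hy2 W ⟨hW', hvW⟩ ?_
          exact (Submodule.add_mem_iff_left _ (Submodule.smul_mem _ t hvW)).1 hmem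
        · rcases ht with rfl | rfl
          · exact hεbad.1 (Set.mem_biUnion (show W ∈ {W ∈ 𝒲 | v₀ ∉ W} from ⟨hW', hvW⟩) hmem)
          · exact hεbad.2 (Set.mem_biUnion (show W ∈ {W ∈ 𝒲 | v₀ ∉ W} from ⟨hW', hvW⟩) hmem)
      have hxK : ∀ t : ℝ, y + t • v₀ ∈ K := fun t =>
        Submodule.add_mem _ (hH1 hy) (Submodule.smul_mem _ _ hv₀K)
      obtain ⟨m₁, hm₁⟩ := hW _ (hxK ε) (hxW ε (Or.inl rfl))
      obtain ⟨m₂, hm₂⟩ := hW _ (hxK (-ε)) (hxW (-ε) (Or.inr rfl))
      refine ⟨m₁ - m₂, ?_⟩
      push_cast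
      rw [← hm₁, ← hm₂, htotal, htotal, ← Finset.sum_sub_distrib]
      rw [← Finset.add_sum_erase _ _ hH₀]
      have hzero : ∑ H ∈ ℋ.erase H₀,
          (∑ B ∈ 𝔅' H, c (insert v₀ B) * ind (insert v₀ B) (y + ε • v₀) -
            ∑ B ∈ 𝔅' H, c (insert v₀ B) * ind (insert v₀ B) (y + (-ε) • v₀)) = 0 := by
        apply Finset.sum_eq_zero
        intro H hH
        have hH' := Finset.mem_erase.1 hH
        obtain ⟨h1, h2, h3⟩ := hℋ H hH'.2
        rw [sub_eq_zero]
        refine Finset.sum_congr rfl fun B hB => ?_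
        congr 1
        have hBH : ∀ b ∈ B, b ∈ H := fun b hb => (hB1 H h2 B hB).2.mem hb
        have e1 : y + ε • v₀ = y' H + (s H + ε) • v₀ := by
          conv_lhs => rw [hyy' H hH]
          rw [add_smul, add_assoc]
        have e2 : y + (-ε) • v₀ = y' H + (s H + -ε) • v₀ := by
          conv_lhs => rw [hyy' H hH]
          rw [add_smul, add_assoc]
        rw [e1, e2]
        apply iv_congr
        rw [mem_cone_insert hBH h3 (hy'H H hH), mem_cone_insert hBH h3 (hy'H H hH)]
        have hlt : ε < |s H| := hε.2.trans_le (hδs H hH)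
        have hε0 := hε.1
        have : 0 < s H + ε ↔ 0 < s H + -ε := by
          rcases lt_or_gt_of_ne (hs0 H hH) with h | h
          · rw [abs_of_neg h] at hlt
            constructor <;> intro h' <;> linarith
          · rw [abs_of_pos h] at hlt
            constructor <;> intro h' <;> linarith
        rw [this]
      rw [hzero, add_zero, ← Finset.sum_sub_distrib]
      refine Finset.sum_congr rfl fun B hB => ?_
      have hBH : ∀ b ∈ B, b ∈ H₀ := fun b hb => (hB1 H₀ hH2 B hB).2.mem hb
      have e1 : ind (insert v₀ B) (y + ε • v₀) = ind B y := by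
        apply iv_congr
        rw [mem_cone_insert hBH hH3 hy]
        exact ⟨fun h => h.2, fun h => ⟨hε.1, h⟩⟩
      have e2 : ind (insert v₀ B) (y + (-ε) • v₀) = 0 := by
        apply iv_false
        rw [mem_cone_insert hBH hH3 hy]
        rintro ⟨h, -⟩
        have := hε.1
        linarith
      rw [e1, e2]
      ring

end Q143.CN
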