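import Pool.Agent.Q143.CN.Main

/-!
# From cones to simplices and measures
-/

namespace Q143.CN

open Finset MeasureTheory

/-- `ℝ ^ d` -/
abbrev E (d : ℕ) := EuclideanSpace ℝ (Fin d)

variable {d : ℕ}

/-- Homogenisation. -/
def hom (x : E d) : E d × ℝ := (x, 1)

theorem hom_inj : Function.Injective (hom : E d → E d × ℝ) := fun _ _ h => congrArg Prod.fst h

open Classical in
/-- The standard measure of a set. -/
noncomputable def mu (Ω : Set (E d)) : SignedMeasure (E d) :=
  (volume : Measure (E d)).withDensityᵥ (Ω.indicator fun _ => (1 : ℝ))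

/-- `T` is the vertex set of a `d`-simplex. -/
def IsSimplex (T : Finset (E d)) : Prop :=
  T.card = d + 1 ∧ AffineIndependent ℝ (fun x : T => (x : E d))

theorem ae_not_mem {W : Submodule ℝ (E d × ℝ)} (hW : ¬ (⊤ : Submodule ℝ (E d × ℝ)) ≤ W) :
    ∀ᵐ x : E d, hom x ∉ W := by
  let A : AffineSubspace ℝ (E d) :=
    { carrier := {x | hom x ∈ W}
      smul_vsub_vadd_mem' := by
        intro c p₁ p₂ p₃ h1 h2 h3
        change hom (c • (p₁ - p₂) + p₃) ∈ W
        have e : hom (c • (p₁ - p₂) + p₃) = c • (hom p₁ - hom p₂) + hom p₃ := by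
          simp [hom]
        rw [e]
        exact W.add_mem (W.smul_mem _ (W.sub_mem h1 h2)) h3 }
  have hA : A ≠ ⊤ := by
    intro h
    apply hW
    have hall : ∀ x : E d, hom x ∈ W := by
      intro x
      have : x ∈ A := h ▸ AffineSubspace.mem_top ℝ (E d) x
      exact this
    rintro ⟨x, t⟩ -
    have e : ((x, t) : E d × ℝ) = (hom x - hom 0) + t • hom 0 := by simp [hom]
    rw [e]
    exact W.add_mem (W.sub_mem (hall x) (hall 0)) (W.smul_mem _ (hall 0))
  have := Measure.addHaar_affineSubspace (volume : Measure (E d)) A hA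
  rw [ae_iff]
  simp only [not_not]
  exact this

theorem Gen.ae {p : E d × ℝ → Prop} (h : Gen ⊤ p) : ∀ᵐ x : E d, p (hom x) := by
  obtain ⟨𝒲, h1, h2, h3⟩ := h
  have : ∀ᵐ x : E d, ∀ W ∈ 𝒲, hom x ∉ W :=
    (ae_ball_iff h1.countable).2 fun W hW => ae_not_mem (h2 W hW)
  filter_upwards [this] with x hx
  exact h3 _ trivial hx

theorem finrank_prod : Module.finrank ℝ (E d × ℝ) = d + 1 := by
  rw [Module.finrank_prod, Module.finrank_self, finrank_euclideanSpace_fin]

variable [DecidableEq (E d)] [DecidableEq (E d × ℝ)]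

omit [DecidableEq (E d)] in
theorem sum_hom (T : Finset (E d)) (c : E d × ℝ → ℝ) :
    ∑ b ∈ T.image hom, c b • b = (∑ t ∈ T, c (hom t) • t, ∑ t ∈ T, c (hom t)) := by
  rw [Finset.sum_image fun x _ y _ h => hom_inj h]
  apply Prod.ext
  · rw [Prod.fst_sum]
    rfl
  · rw [Prod.snd_sum]
    exact Finset.sum_congr rfl fun t _ => by simp [hom]

theorem linearIndep_iff (T : Finset (E d)) :
    LinearIndepOn ℝ id ((T.image hom : Finset (E d × ℝ)) : Set (E d × ℝ)) ↔
      AffineIndependent ℝ (fun x : T => (x : E d)) := by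
  rw [linearIndepOn_finset_iff, affineIndependent_iff]
  constructor
  · intro h s w hw1 hw2 e he
    let c : E d × ℝ → ℝ := fun b => if h : b.1 ∈ T then (if (⟨b.1, h⟩ : T) ∈ s then w ⟨b.1, h⟩ else 0)
      else 0
    have hc : ∀ t (ht : t ∈ T), c (hom t) = if (⟨t, ht⟩ : T) ∈ s then w ⟨t, ht⟩ else 0 := by
      intro t ht
      simp only [c, hom, dif_pos ht]
    have h1 : ∑ t ∈ T, c (hom t) • t = 0 := by
      rw [← hw2, ← Finset.sum_attach]
      rw [← Finset.sum_subset (Finset.subset_univ s |>.trans (by simp : Finset.univ ⊆ T.attach))]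
      · refine Finset.sum_congr rfl fun t ht => ?_
        rw [hc t.1 t.2, if_pos ht]
      · intro t _ ht
        rw [hc t.1 t.2, if_neg ht, zero_smul]
    have h2 : ∑ t ∈ T, c (hom t) = 0 := by
      rw [← hw1, ← Finset.sum_attach]
      rw [← Finset.sum_subset (Finset.subset_univ s |>.trans (by simp : Finset.univ ⊆ T.attach))]
      · refine Finset.sum_congr rfl fun t ht => ?_
        rw [hc t.1 t.2, if_pos ht]
      · intro t _ ht
        rw [hc t.1 t.2, if_neg ht]
    have h3 := h c (by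
      change ∑ b ∈ T.image hom, c b • b = 0
      rw [sum_hom, h1, h2]
      rfl) (hom e.1) (Finset.mem_image_of_mem _ e.2)
    rw [hc e.1 e.2, if_pos he] at h3
    exact h3
  · intro h g hg b hb
    obtain ⟨t, ht, rfl⟩ := Finset.mem_image.1 hb
    change ∑ b ∈ T.image hom, g b • b = 0 at hg
    rw [sum_hom] at hg
    have h1 := congrArg Prod.fst hg
    have h2 := congrArg Prod.snd hg
    simp only [Prod.fst_zero, Prod.snd_zero] at h1 h2
    refine h Finset.univ (fun t => g (hom t.1)) ?_ ?_ ⟨t, ht⟩ (Finset.mem_univ _)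
    · rw [← h2]
      exact Finset.sum_coe_sort T (fun t => g (hom t))
    · rw [← h1]
      exact Finset.sum_coe_sort T (fun t => g (hom t) • t)

theorem isBasis_of_isSimplex {T : Finset (E d)} (hT : IsSimplex T) :
    IsBasis ⊤ (T.image hom) := by
  have h1 := (linearIndep_iff T).2 hT.2
  refine ⟨h1, ?_⟩
  apply Submodule.eq_top_of_finrank_eq
  have h2 := finrank_span_set_eq_card h1
  rw [h2, finrank_prod]
  simp only [Set.toFinset_card]
  simp only [Finset.coe_sort_coe, Fintype.card_coe]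
  rw [Finset.card_image_of_injective _ hom_inj, hT.1]

theorem isSimplex_of_isBasis {S : Finset (E d)} {B : Finset (E d × ℝ)} (hBS : B ⊆ S.image hom)
    (hB : IsBasis ⊤ B) : ∃ T, T ⊆ S ∧ IsSimplex T ∧ T.image hom = B := by
  refine ⟨B.image Prod.fst, ?_, ?_, ?_⟩
  · intro x hx
    obtain ⟨b, hb, rfl⟩ := Finset.mem_image.1 hx
    obtain ⟨s, hs, rfl⟩ := Finset.mem_image.1 (hBS hb)
    exact hs
  all_goals
    have himg : (B.image Prod.fst).image hom = B := by
      rw [Finset.image_image]
      conv_rhs => rw [← Finset.image_id (s := B)]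
      refine Finset.image_congr fun b hb => ?_
      obtain ⟨s, hs, rfl⟩ := Finset.mem_image.1 (hBS hb)
      rfl
  · constructor
    · rw [← Finset.card_image_of_injective _ (hom_inj (d := d)), himg, ← hB.finrank, finrank_top,
        finrank_prod]
    · rw [← linearIndep_iff, himg]
      exact hB.1
  · exact himg

/-- The indicator function of a simplex is almost everywhere that of the cone. -/
theorem ae_indicator {T : Finset (E d)} (hT : IsSimplex T) :
    ∀ᵐ x : E d, (convexHull ℝ (T : Set (E d))).indicator (fun _ => (1 : ℝ)) x =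
      ind (T.image hom) (hom x) := by
  have hB := isBasis_of_isSimplex hT
  have hindep : ∀ b ∈ T.image hom, ¬ (⊤ : Submodule ℝ (E d × ℝ)) ≤
      Submodule.span ℝ (((T.image hom).erase b : Finset (E d × ℝ)) : Set (E d × ℝ)) := by
    intro b hb hle
    have h1 := Submodule.finrank_mono hle
    rw [finrank_top, finrank_prod] at h1
    have h2 := finrank_span_finset_le_card (R := ℝ) ((T.image hom).erase b)
    have h3 : Set.finrank ℝ (((T.image hom).erase b : Finset (E d × ℝ)) : Set (E d × ℝ)) =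
      Module.finrank ℝ (Submodule.span ℝ
        (((T.image hom).erase b : Finset (E d × ℝ)) : Set (E d × ℝ))) := rfl
    rw [Finset.card_erase_of_mem hb, Finset.card_image_of_injective _ hom_inj, hT.1] at h2
    omega
  have hg : Gen ⊤ fun v : E d × ℝ => ∀ b ∈ T.image hom,
      v ∉ Submodule.span ℝ (((T.image hom).erase b : Finset (E d × ℝ)) : Set (E d × ℝ)) :=
    Gen.forall_mem _ fun b hb => Gen.not_mem (hindep b hb)
  filter_upwards [hg.ae] with x hx
  obtain ⟨c, hc⟩ := hB.coord (x := hom x) trivial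
  have hc0 : ∀ b ∈ T.image hom, c b ≠ 0 := by
    intro b hb h0
    apply hx b hb
    rw [hc, ← Finset.add_sum_erase _ _ hb, h0, zero_smul, zero_add]
    exact Submodule.sum_mem _ fun j hj => Submodule.smul_mem _ _ (Submodule.subset_span hj)
  have hmem : x ∈ convexHull ℝ (T : Set (E d)) ↔ hom x ∈ cone (T.image hom) := by
    rw [mem_cone_iff hB.1 hc, Finset.mem_convexHull']
    constructor
    · rintro ⟨w, hw1, hw2, hw3⟩ b hb
      have hw : hom x = ∑ b ∈ T.image hom, w b.1 • b := by
        rw [sum_hom]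
        change (x, (1 : ℝ)) = (∑ t ∈ T, w t • t, ∑ t ∈ T, w t)
        rw [hw2, hw3]
      have h1 := coord_unique hB.1 (hc.symm.trans hw) b hb
      obtain ⟨t, ht, rfl⟩ := Finset.mem_image.1 hb
      have h2 : 0 ≤ c (hom t) := by
        rw [h1]
        exact hw1 t ht
      exact lt_of_le_of_ne h2 (hc0 _ hb).symm
    · intro h
      rw [sum_hom] at hc
      refine ⟨fun t => c (hom t), fun t ht => (h _ (Finset.mem_image_of_mem _ ht)).le, ?_, ?_⟩
      · exact (congrArg Prod.snd hc).symm
      · exact (congrArg Prod.fst hc).symm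
  unfold ind
  by_cases h : x ∈ convexHull ℝ (T : Set (E d))
  · rw [Set.indicator_of_mem h, iv_true (hmem.1 h)]
  · rw [Set.indicator_of_notMem h, iv_false fun h' => h (hmem.2 h')]

omit [DecidableEq (E d)] in
/-- Coordinates with respect to a basis as continuous functions. -/
theorem exists_coord_fun {B : Finset (E d × ℝ)} (hB : IsBasis ⊤ B) :
    ∃ f : E d × ℝ → (E d × ℝ) →ₗ[ℝ] ℝ, (∀ b, Continuous (f b)) ∧
      ∀ v, v = ∑ b ∈ B, f b v • b := by
  have hspan : ⊤ ≤ Submodule.span ℝ (Set.range fun b : (B : Set (E d × ℝ)) => id (b : E d × ℝ)) := by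
    have : (Set.range fun b : (B : Set (E d × ℝ)) => id (b : E d × ℝ)) = (B : Set (E d × ℝ)) := by
      ext v
      simp
    rw [this, hB.2]
  let bas := Module.Basis.mk hB.1 hspan
  refine ⟨fun b => if h : b ∈ B then bas.coord ⟨b, h⟩ else 0, fun b =>
    LinearMap.continuous_of_finiteDimensional _, fun v => ?_⟩
  have h1 := bas.sum_repr v
  conv_lhs => rw [← h1]
  rw [← Finset.sum_coe_sort B]
  refine Finset.sum_congr rfl fun b _ => ?_
  have h2 : bas b = b.1 := by
    have := Module.Basis.mk_apply hB.1 hspan b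
    exact this
  rw [h2]
  congr 1
  have hb : (b : E d × ℝ) ∈ B := b.2
  simp only [dif_pos hb]
  rfl

omit [DecidableEq (E d)] in
/-- The indicator of the cone is locally constant outside of the hyperplanes of its facets. -/
theorem eventually_ind {B : Finset (E d × ℝ)} (hB : IsBasis ⊤ B) {v : E d × ℝ}
    (hv : ∀ b ∈ B, v ∉ Submodule.span ℝ ((B.erase b : Finset (E d × ℝ)) : Set (E d × ℝ))) :
    ∀ᶠ u in nhds v, ind B u = ind B v := by
  obtain ⟨f, hf, hfv⟩ := exists_coord_fun hB
  have hmem : ∀ u, u ∈ cone B ↔ ∀ b ∈ B, 0 < f b u := fun u => mem_cone_iff hB.1 (hfv u)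
  have hne : ∀ b ∈ B, f b v ≠ 0 := by
    intro b hb h0
    apply hv b hb
    rw [hfv v, ← Finset.add_sum_erase _ _ hb, h0, zero_smul, zero_add]
    exact Submodule.sum_mem _ fun j hj => Submodule.smul_mem _ _ (Submodule.subset_span hj)
  have hev : ∀ᶠ u in nhds v, ∀ b ∈ B, (0 < f b u ↔ 0 < f b v) := by
    rw [Filter.eventually_all_finset]
    intro b hb
    rcases lt_or_gt_of_ne (hne b hb) with h | h
    · filter_upwards [(hf b).continuousAt.eventually (Iio_mem_nhds h)] with u hu
      have hu : f b u < 0 := hu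
      constructor <;> intro h' <;> linarith
    · filter_upwards [(hf b).continuousAt.eventually (Ioi_mem_nhds h)] with u hu
      have hu : 0 < f b u := hu
      exact ⟨fun _ => h, fun _ => hu⟩
  filter_upwards [hev] with u hu
  apply iv_congr
  rw [hmem, hmem]
  exact ⟨fun h b hb => (hu b hb).1 (h b hb), fun h b hb => (hu b hb).2 (h b hb)⟩

omit [DecidableEq (E d)] [DecidableEq (E d × ℝ)] in
theorem ind_smul (B : Finset (E d × ℝ)) (v : E d × ℝ) {t : ℝ} (ht : 0 < t) :
    ind B (t • v) = ind B v := by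
  apply iv_congr
  constructor
  · rintro ⟨c, h1, h2⟩
    refine ⟨fun b => t⁻¹ * c b, fun b hb => mul_pos (inv_pos.2 ht) (h1 b hb), ?_⟩
    have : v = t⁻¹ • (t • v) := by rw [smul_smul, inv_mul_cancel₀ ht.ne', one_smul]
    rw [this, h2, Finset.smul_sum]
    exact Finset.sum_congr rfl fun b _ => smul_smul _ _ _
  · rintro ⟨c, h1, h2⟩
    refine ⟨fun b => t * c b, fun b hb => mul_pos ht (h1 b hb), ?_⟩
    rw [h2, Finset.smul_sum]
    exact Finset.sum_congr rfl fun b _ => smul_smul _ _ _

omit [DecidableEq (E d)] [DecidableEq (E d × ℝ)] in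
theorem hom_continuous : Continuous (hom : E d → E d × ℝ) := by
  unfold hom
  fun_prop

/-- A combination of cone indicators which is almost everywhere an integer on the slice is
generically an integer. -/
theorem gen_int_of_ae {S : Finset (E d)} {𝔅 : Finset (Finset (E d × ℝ))}
    (h𝔅 : ∀ B ∈ 𝔅, B ⊆ S.image hom ∧ IsBasis ⊤ B) (c : Finset (E d × ℝ) → ℝ)
    (h : ∀ᵐ x : E d, ∃ m : ℤ, ∑ B ∈ 𝔅, c B * ind B (hom x) = m) :
    Gen ⊤ fun v => ∃ m : ℤ, ∑ B ∈ 𝔅, c B * ind B v = m := by
  have hindep : ∀ B ∈ 𝔅, ∀ b ∈ B, ¬ (⊤ : Submodule ℝ (E d × ℝ)) ≤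
      Submodule.span ℝ ((B.erase b : Finset (E d × ℝ)) : Set (E d × ℝ)) := by
    intro B hB b hb hle
    have h1 := Submodule.finrank_mono hle
    rw [(h𝔅 B hB).2.finrank] at h1
    have h2 := finrank_span_finset_le_card (R := ℝ) (B.erase b)
    have h3 : Set.finrank ℝ ((B.erase b : Finset (E d × ℝ)) : Set (E d × ℝ)) =
      Module.finrank ℝ (Submodule.span ℝ
        ((B.erase b : Finset (E d × ℝ)) : Set (E d × ℝ))) := rfl
    rw [Finset.card_erase_of_mem hb] at h2
    have h4 : 0 < B.card := Finset.card_pos.2 ⟨b, hb⟩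
    omega
  have hg : Gen ⊤ fun v : E d × ℝ => ∀ B ∈ 𝔅, ∀ b ∈ B,
      v ∉ Submodule.span ℝ ((B.erase b : Finset (E d × ℝ)) : Set (E d × ℝ)) :=
    Gen.forall_mem _ fun B hB => Gen.forall_mem _ fun b hb => Gen.not_mem (hindep B hB b hb)
  refine hg.mono fun v _ hv => ?_
  by_cases hv2 : 0 < v.2
  · -- normalise
    obtain ⟨x, hx⟩ : ∃ x : E d, v = v.2 • hom x := by
      refine ⟨v.2⁻¹ • v.1, ?_⟩
      apply Prod.ext
      · simp [hom, smul_smul, mul_inv_cancel₀ hv2.ne']
      · simp [hom]
    have hindv : ∀ B, ind B v = ind B (hom x) := fun B => by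
      conv_lhs => rw [hx]
      exact ind_smul B _ hv2
    have hxW : ∀ B ∈ 𝔅, ∀ b ∈ B,
        hom x ∉ Submodule.span ℝ ((B.erase b : Finset (E d × ℝ)) : Set (E d × ℝ)) := by
      intro B hB b hb hmem
      apply hv B hB b hb
      rw [hx]
      exact Submodule.smul_mem _ _ hmem
    have hev : ∀ᶠ y in nhds x, ∀ B ∈ 𝔅, ind B (hom y) = ind B (hom x) := by
      rw [Filter.eventually_all_finset]
      intro B hB
      exact hom_continuous.continuousAt.eventually (eventually_ind (h𝔅 B hB).2 (hxW B hB))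
    obtain ⟨y, hy1, m, hm⟩ : ∃ y, (∀ B ∈ 𝔅, ind B (hom y) = ind B (hom x)) ∧
        ∃ m : ℤ, ∑ B ∈ 𝔅, c B * ind B (hom y) = m := by
      obtain ⟨U, hU, hUo, hxU⟩ := mem_nhds_iff.1 hev
      have hpos : (volume : Measure (E d)) U ≠ 0 := (hUo.measure_pos _ ⟨x, hxU⟩).ne'
      by_contra hcon
      push Not at hcon
      apply hpos
      refine measure_mono_null ?_ (ae_iff.1 h)
      intro y hy
      rintro ⟨m, hm⟩
      exact hcon y (hU hy) m hm
    refine ⟨m, ?_⟩
    rw [← hm]
    exact Finset.sum_congr rfl fun B hB => by rw [hindv, hy1 B hB]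
  · refine ⟨0, ?_⟩
    rw [Int.cast_zero]
    apply Finset.sum_eq_zero
    intro B hB
    rw [mul_eq_zero]
    right
    apply iv_false
    rintro ⟨a, h1, h2⟩
    apply hv2
    have h3 : v.2 = ∑ b ∈ B, a b := by
      conv_lhs => rw [h2]
      rw [Prod.snd_sum]
      refine Finset.sum_congr rfl fun b hb => ?_
      obtain ⟨s, -, rfl⟩ := Finset.mem_image.1 ((h𝔅 B hB).1 hb)
      simp [hom]
    rw [h3]
    apply Finset.sum_pos h1
    rw [← Finset.card_pos, ← (h𝔅 B hB).2.finrank, finrank_top, finrank_prod]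
    omega

end Q143.CN
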