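import Mathlib

/-!
# The combinatorial identity behind the replacement of a vertex of a cone
-/

namespace Q143.CN

open Finset

variable {ι : Type*} [DecidableEq ι]

open Classical in
/-- `[p]` as a real number -/
noncomputable def iv (p : Prop) : ℝ := if p then 1 else 0

theorem iv_true {p : Prop} (h : p) : iv p = 1 := if_pos h
theorem iv_false {p : Prop} (h : ¬ p) : iv p = 0 := if_neg h

theorem iv_congr {p q : Prop} (h : p ↔ q) : iv p = iv q := by rw [propext h]

omit [DecidableEq ι] in
theorem sum_iv_unique (s : Finset ι) (p : ι → Prop) (u : ι) (hu : u ∈ s)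
    (h : ∀ b ∈ s, p b → b = u) : ∑ b ∈ s, iv (p b) = iv (p u) := by
  apply Finset.sum_eq_single u
  · intro b hb hne
    exact iv_false fun hp => hne (h b hb hp)
  · exact fun h => absurd hu h

/-- Coordinates after the replacement of `b`. -/
def Pb (B : Finset ι) (a c : ι → ℝ) (b : ι) : Prop :=
  0 < c b / a b ∧ ∀ j ∈ B.erase b, 0 < c j - c b / a b * a j

theorem real_identity (B : Finset ι) (a c : ι → ℝ) (hc : ∀ b ∈ B, c b ≠ 0)
    (hd : ∀ b ∈ B, ∀ j ∈ B, b ≠ j → a b ≠ 0 → a j ≠ 0 → c b / a b ≠ c j / a j)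
    (hpos : ∃ b ∈ B, 0 < a b) :
    iv (∀ b ∈ B, 0 < c b) = ∑ b ∈ B with 0 < a b, iv (Pb B a c b) -
      ∑ b ∈ B with a b < 0, iv (Pb B a c b) := by
  by_cases h0 : ∃ j ∈ B, a j = 0 ∧ c j < 0
  · obtain ⟨j, hj, haj, hcj⟩ := h0
    have hz : ∀ b ∈ B, a b ≠ 0 → iv (Pb B a c b) = 0 := by
      intro b hb hab
      refine iv_false fun hp => ?_
      have hne : j ≠ b := by
        rintro rfl
        exact hab haj
      have := hp.2 j (Finset.mem_erase.2 ⟨hne, hj⟩)
      rw [haj, mul_zero, sub_zero] at this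
      linarith
    rw [iv_false fun h => absurd (h j hj) (by linarith), Finset.sum_eq_zero, Finset.sum_eq_zero,
      sub_zero]
    · intro b hb
      rw [Finset.mem_filter] at hb
      exact hz b hb.1 hb.2.ne
    · intro b hb
      rw [Finset.mem_filter] at hb
      exact hz b hb.1 hb.2.ne'
  · have h0' : ∀ j ∈ B, a j = 0 → 0 < c j := by
      intro j hj haj
      rcases lt_or_gt_of_ne (hc j hj) with h | h
      · exact absurd ⟨j, hj, haj, h⟩ h0
      · exact h
    let s : ι → ℝ := fun b => c b / a b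
    -- characterisation of the conditions in terms of `s`
    have hcpos : ∀ j, 0 < a j → (0 < c j ↔ 0 < s j) := by
      intro j hj
      change 0 < c j ↔ 0 < c j / a j
      rw [lt_div_iff₀ hj, zero_mul]
    have hcneg : ∀ j, a j < 0 → (0 < c j ↔ s j < 0) := by
      intro j hj
      change 0 < c j ↔ c j / a j < 0
      rw [div_lt_iff_of_neg hj, zero_mul]
    have hspos : ∀ j t, 0 < a j → (0 < c j - t * a j ↔ t < s j) := by
      intro j t hj
      change 0 < c j - t * a j ↔ t < c j / a j
      rw [lt_div_iff₀ hj, sub_pos]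
    have hsneg : ∀ j t, a j < 0 → (0 < c j - t * a j ↔ s j < t) := by
      intro j t hj
      change 0 < c j - t * a j ↔ c j / a j < t
      rw [div_lt_iff_of_neg hj, sub_pos]
    have hP : ∀ b ∈ B, a b ≠ 0 → (Pb B a c b ↔ 0 < s b ∧ (∀ j ∈ B, j ≠ b → 0 < a j → s b < s j) ∧
        (∀ j ∈ B, j ≠ b → a j < 0 → s j < s b)) := by
      intro b hb hab
      constructor
      · rintro ⟨h1, h2⟩
        refine ⟨h1, fun j hj hjb haj => ?_, fun j hj hjb haj => ?_⟩
        · exact (hspos j _ haj).1 (h2 j (Finset.mem_erase.2 ⟨hjb, hj⟩))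
        · exact (hsneg j _ haj).1 (h2 j (Finset.mem_erase.2 ⟨hjb, hj⟩))
      · rintro ⟨h1, h2, h3⟩
        refine ⟨h1, fun j hj => ?_⟩
        rw [Finset.mem_erase] at hj
        rcases lt_trichotomy (a j) 0 with h | h | h
        · exact (hsneg j _ h).2 (h3 j hj.2 hj.1 h)
        · rw [h, mul_zero, sub_zero]
          exact h0' j hj.2 h
        · exact (hspos j _ h).2 (h2 j hj.2 hj.1 h)
    obtain ⟨u, hu, hmin⟩ := Finset.exists_min_image (B.filter fun b => 0 < a b) s (by
      obtain ⟨b, hb, hab⟩ := hpos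
      exact ⟨b, Finset.mem_filter.2 ⟨hb, hab⟩⟩)
    rw [Finset.mem_filter] at hu
    have hmin' : ∀ j ∈ B, j ≠ u → 0 < a j → s u < s j := by
      intro j hj hju haj
      exact lt_of_le_of_ne (hmin j (Finset.mem_filter.2 ⟨hj, haj⟩))
        (hd u hu.1 j hj hju.symm hu.2.ne' haj.ne')
    have hsum1 : ∑ b ∈ B with 0 < a b, iv (Pb B a c b) = iv (Pb B a c u) := by
      apply sum_iv_unique _ _ _ (Finset.mem_filter.2 hu)
      intro b hb hp
      rw [Finset.mem_filter] at hb
      by_contra hbu
      have h1 := ((hP b hb.1 hb.2.ne').1 hp).2.1 u hu.1 (Ne.symm hbu) hu.2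
      have h2 := hmin' b hb.1 hbu hb.2
      exact lt_asymm h1 h2
    rw [hsum1]
    by_cases hneg : ∃ b ∈ B, a b < 0
    · obtain ⟨l, hl, hmax⟩ := Finset.exists_max_image (B.filter fun b => a b < 0) s (by
        obtain ⟨b, hb, hab⟩ := hneg
        exact ⟨b, Finset.mem_filter.2 ⟨hb, hab⟩⟩)
      rw [Finset.mem_filter] at hl
      have hmax' : ∀ j ∈ B, j ≠ l → a j < 0 → s j < s l := by
        intro j hj hjl haj
        exact lt_of_le_of_ne (hmax j (Finset.mem_filter.2 ⟨hj, haj⟩))
          (hd j hj l hl.1 hjl haj.ne hl.2.ne)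
      have hlu : l ≠ u := by
        rintro rfl
        exact lt_asymm hl.2 hu.2
      have hsum2 : ∑ b ∈ B with a b < 0, iv (Pb B a c b) = iv (Pb B a c l) := by
        apply sum_iv_unique _ _ _ (Finset.mem_filter.2 hl)
        intro b hb hp
        rw [Finset.mem_filter] at hb
        by_contra hbl
        have h1 := ((hP b hb.1 hb.2.ne).1 hp).2.2 l hl.1 (Ne.symm hbl) hl.2
        have h2 := hmax' b hb.1 hbl hb.2
        exact lt_asymm h1 h2
      rw [hsum2]
      have e1 : Pb B a c u ↔ 0 < s u ∧ s l < s u := by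
        rw [hP u hu.1 hu.2.ne']
        constructor
        · rintro ⟨h1, -, h3⟩
          exact ⟨h1, h3 l hl.1 hlu hl.2⟩
        · rintro ⟨h1, h2⟩
          refine ⟨h1, hmin', fun j hj _ haj => ?_⟩
          by_cases hjl : j = l
          · rw [hjl]
            exact h2
          · exact (hmax' j hj hjl haj).trans h2
      have e2 : Pb B a c l ↔ 0 < s l ∧ s l < s u := by
        rw [hP l hl.1 hl.2.ne]
        constructor
        · rintro ⟨h1, h2, -⟩
          exact ⟨h1, h2 u hu.1 hlu.symm hu.2⟩
        · rintro ⟨h1, h2⟩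
          refine ⟨h1, fun j hj _ haj => ?_, hmax'⟩
          by_cases hju : j = u
          · rw [hju]
            exact h2
          · exact h2.trans (hmin' j hj hju haj)
      have e3 : (∀ b ∈ B, 0 < c b) ↔ 0 < s u ∧ s l < 0 := by
        constructor
        · intro h
          exact ⟨(hcpos u hu.2).1 (h u hu.1), (hcneg l hl.2).1 (h l hl.1)⟩
        · rintro ⟨h1, h2⟩ b hb
          rcases lt_trichotomy (a b) 0 with h | h | h
          · rw [hcneg b h]
            by_cases hbl : b = l
            · rwa [hbl]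
            · exact (hmax' b hb hbl h).trans h2
          · exact h0' b hb h
          · rw [hcpos b h]
            by_cases hbu : b = u
            · rwa [hbu]
            · exact h1.trans (hmin' b hb hbu h)
      have hsl : s l ≠ 0 := div_ne_zero (hc l hl.1) hl.2.ne
      rw [iv_congr e1, iv_congr e2, iv_congr e3]
      by_cases h1 : 0 < s u
      · by_cases h2 : 0 < s l
        · by_cases h3 : s l < s u
          · rw [iv_false (by rintro ⟨-, h⟩; linarith), iv_true ⟨h1, h3⟩, iv_true ⟨h2, h3⟩]
            ring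
          · rw [iv_false (by rintro ⟨-, h⟩; linarith), iv_false (by rintro ⟨-, h⟩; exact h3 h),
              iv_false (by rintro ⟨-, h⟩; exact h3 h)]
            ring
        · have h2' : s l < 0 := lt_of_le_of_ne (not_lt.1 h2) hsl
          rw [iv_true ⟨h1, h2'⟩, iv_true ⟨h1, h2'.trans h1⟩, iv_false (fun h => h2 h.1)]
          ring
      · rw [iv_false (fun h => h1 h.1), iv_false (fun h => h1 h.1),
          iv_false (fun h => h1 (h.1.trans h.2))]
        ring
    · have hsum2 : ∑ b ∈ B with a b < 0, iv (Pb B a c b) = 0 := by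
        apply Finset.sum_eq_zero
        intro b hb
        rw [Finset.mem_filter] at hb
        exact absurd ⟨b, hb.1, hb.2⟩ hneg
      rw [hsum2, sub_zero]
      apply iv_congr
      rw [hP u hu.1 hu.2.ne']
      constructor
      · intro h
        exact ⟨(hcpos u hu.2).1 (h u hu.1), hmin', fun j hj _ haj => absurd ⟨j, hj, haj⟩ hneg⟩
      · rintro ⟨h1, -, -⟩ b hb
        rcases lt_trichotomy (a b) 0 with h | h | h
        · exact absurd ⟨b, hb, h⟩ hneg
        · exact h0' b hb h
        · rw [hcpos b h]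
          by_cases hbu : b = u
          · rwa [hbu]
          · exact h1.trans (hmin' b hb hbu h)

end Q143.CN
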